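import Pool.Agent.N20.DI.Stm2
import Pool.Agent.N20.DI.MR
import Pool.Agent.R674.Tw.Final
import Pool.Agent.Q90.WR.Bcj

/-!
# The ordinary conjecture is the invariant conjecture for `G = E`
-/

set_option autoImplicit false
set_option linter.unusedSectionVars false

open scoped Classical BigOperators

noncomputable section

namespace Pool.Agent.N622.DIORD

open Pool.Agent.Y63.NV
open Pool.Agent.Y63.KR
open Pool.Agent.Y63.AWC (IsIrreducibleCharacter)
open Pool.Agent.R674.Tw (Fixes GCh NG NE NEbar ng_le IndB invSum)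
open Pool.Agent.N20.DI
open Pool.Agent.N20.KB (irr_comp')

section

variable {F : Type} [Field F] (red : integralClosure ℤ ℂ →+* F) {H : Type} [Group H]

/-- the count of the ordinary conjecture -/
def gc (p : ℕ) (B : (H → F) → F) (d : ℕ) (J : Subgroup H) : ℤ :=
  (Nat.card {χ : J → ℂ // IsIrreducibleCharacter χ ∧
      HasDef p d χ ∧ ∀ f : H → F, IsClassFun f → centralValue red χ (fun x => f x) = B f} : ℤ)

/-- the transported block -/
def tb (B : (H → F) → F) : ((⊤ : Subgroup H) → F) → F :=
  fun f => B (fun x => f ((Subgroup.topEquiv (G := H)).symm x))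

theorem cf_down {f : (⊤ : Subgroup H) → F} (hf : IsClassFun f) :
    IsClassFun (fun x : H => f ((Subgroup.topEquiv (G := H)).symm x)) := by
  intro g x
  change f (Subgroup.topEquiv.symm (g * x * g⁻¹)) = f (Subgroup.topEquiv.symm x)
  rw [map_mul, map_mul, map_inv]
  exact hf _ _

theorem cf_up {f : H → F} (hf : IsClassFun f) :
    IsClassFun (fun x : (⊤ : Subgroup H) => f x) := fun g x => hf g x

theorem conv_down [Finite H] (f g : (⊤ : Subgroup H) → F) :
    (fun x : H => conv f g ((Subgroup.topEquiv (G := H)).symm x)) =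
      conv (fun x : H => f ((Subgroup.topEquiv (G := H)).symm x))
        (fun x : H => g ((Subgroup.topEquiv (G := H)).symm x)) := by
  funext x
  unfold conv
  rw [← finsum_comp_equiv (Subgroup.topEquiv (G := H)).symm.toEquiv]
  refine finsum_congr fun y => ?_
  change f (Subgroup.topEquiv.symm y) *
    g ((Subgroup.topEquiv.symm y)⁻¹ * Subgroup.topEquiv.symm x) =
    f (Subgroup.topEquiv.symm y) * g (Subgroup.topEquiv.symm (y⁻¹ * x))
  rw [map_mul, map_inv]

theorem tb_block [Finite H] {B : (H → F) → F} (hB : IsBlock B) : IsBlock (tb B) where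
  add f g hf hg := hB.add _ _ (cf_down hf) (cf_down hg)
  smul a f hf := hB.smul a _ (cf_down hf)
  one := by
    unfold tb
    refine (congrArg B ?_).trans hB.one
    funext x
    have h' : (Subgroup.topEquiv (G := H)).symm x = 1 ↔ x = 1 := MulEquiv.map_eq_one_iff _
    unfold Pi.single Function.update
    by_cases hx : x = 1
    · rw [dif_pos (h'.2 hx), dif_pos hx]
      simp
    · rw [dif_neg (fun h => hx (h'.1 h)), dif_neg hx]
      rfl
  mul f g hf hg := by
    unfold tb
    rw [conv_down]
    exact hB.mul _ _ (cf_down hf) (cf_down hg)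

theorem tb_dz [Finite H] {p : ℕ} {B : (H → F) → F} (h0 : numDzBlock p red B = 0) :
    numDzBlock p red (tb B) = 0 := by
  rw [← h0]
  unfold numDzBlock
  have hbot : ∀ x : H, x ∈ (⊥ : Subgroup H) ↔
      (Subgroup.topEquiv (G := H)).symm x ∈ (⊥ : Subgroup (⊤ : Subgroup H)) := by
    intro x
    rw [Subgroup.mem_bot, Subgroup.mem_bot, MulEquiv.map_eq_one_iff]
  have hbot' : ∀ x : (⊤ : Subgroup H), x ∈ (⊥ : Subgroup (⊤ : Subgroup H)) ↔
      (Subgroup.topEquiv (G := H)) x ∈ (⊥ : Subgroup H) := by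
    intro x
    rw [Subgroup.mem_bot, Subgroup.mem_bot, MulEquiv.map_eq_one_iff]
  refine Nat.card_congr
    { toFun := fun χ => ⟨fun x => χ.1 ((Subgroup.topEquiv (G := H)).symm x),
        Pool.Agent.Y286.NV.isWt_comp (Subgroup.topEquiv (G := H)).symm hbot χ.2.1, ?_⟩
      invFun := fun χ => ⟨fun x => χ.1 ((Subgroup.topEquiv (G := H)) x),
        Pool.Agent.Y286.NV.isWt_comp (Subgroup.topEquiv (G := H)) hbot' χ.2.1, ?_⟩
      left_inv := fun χ => rfl
      right_inv := fun χ => rfl }
  · intro f hf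
    have h1 := Pool.Agent.Y286.NV.centralValue_comp red (Subgroup.topEquiv (G := H)).symm χ.1
      (Pool.Agent.Y286.NV.irr_class χ.2.1.irr) (fun x : (⊤ : Subgroup H) => f x) (cf_up hf)
    exact h1.trans (χ.2.2 (fun x : (⊤ : Subgroup H) => f x) (cf_up hf))
  · intro f hf
    have h1 := Pool.Agent.Y286.NV.centralValue_comp red (Subgroup.topEquiv (G := H)) χ.1
      (Pool.Agent.Y286.NV.irr_class χ.2.1.irr)
      (fun x : H => f ((Subgroup.topEquiv (G := H)).symm x)) (cf_down hf)
    exact h1.trans (χ.2.2 _ (cf_down hf))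

/-- the counts for `G = ⊤` -/
theorem kdU_top {p : ℕ} (B : (H → F) → F) (d : ℕ) (σ : Set (Subgroup H)) :
    (kdU p red (⊤ : Subgroup H) (tb B) d ⊤ σ : ℤ) = gc red p B d (chainStabilizer σ) := by
  have h1 : (kdU p red (⊤ : Subgroup H) (tb B) d ⊤ σ : ℤ) = gc red p B d (NG ⊤ σ) := by
    unfold kdU gc
    refine congrArg _ (Nat.card_congr (Equiv.subtypeEquivRight fun χ => ?_))
    have hq : Subsingleton (H ⧸ (⊤ : Subgroup H)) := QuotientGroup.subsingleton_quotient_top
    constructor
    · rintro ⟨h1, h2, -, h4⟩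
      exact ⟨h1, h2, fun f hf => h4 (fun x : (⊤ : Subgroup H) => f x) (cf_up hf)⟩
    · rintro ⟨h1, h2, h4⟩
      refine ⟨h1, h2, ?_, fun f hf => h4 _ (cf_down hf)⟩
      refine eq_top_iff.2 fun x _ => ?_
      rw [Subsingleton.elim x 1]
      exact Subgroup.one_mem _
  rw [h1]
  exact congrArg _ (top_inf_eq _)

/-- invariance under conjugation -/
theorem gc_conj [Finite H] {p : ℕ} (B : (H → F) → F) (d : ℕ) (g : H) (J : Subgroup H) :
    gc red p B d (conjSub g J) = gc red p B d J := by
  unfold gc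
  let e : J ≃* conjSub g J := J.equivMapOfInjective _ (MulAut.conj g).injective
  have he : ∀ f : H → F, IsClassFun f → (fun x : J => (fun y : conjSub g J => f y) (e x)) =
      fun x : J => f x := by
    intro f hf
    funext x
    exact hf g x
  have hc : Nat.card J = Nat.card (conjSub g J) := Nat.card_congr e.toEquiv
  refine congrArg _ (Nat.card_congr
    { toFun := fun χ => ⟨fun x => χ.1 (e x), irr_comp' e χ.2.1, ?_, ?_⟩
      invFun := fun χ => ⟨fun x => χ.1 (e.symm x), irr_comp' e.symm χ.2.1, ?_, ?_⟩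
      left_inv := fun χ => Subtype.ext (by funext x; simp)
      right_inv := fun χ => Subtype.ext (by funext x; simp) })
  · unfold HasDef
    rw [dg_comp e, hc]
    exact χ.2.2.1
  · intro f hf
    have h1 := Pool.Agent.Y286.NV.centralValue_comp red e χ.1
      (Pool.Agent.Y286.NV.irr_class χ.2.1) (fun y : conjSub g J => f y) (fun a x => hf a x)
    rw [he f hf] at h1
    rw [h1]
    exact χ.2.2.2 f hf
  · unfold HasDef
    rw [dg_comp e.symm, ← hc]
    exact χ.2.2.1
  · intro f hf
    have h1 := Pool.Agent.Y286.NV.centralValue_comp red e (fun x => χ.1 (e.symm x))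
      (Pool.Agent.Y286.NV.irr_class (irr_comp' e.symm χ.2.1)) (fun y : conjSub g J => f y)
      (fun a x => hf a x)
    rw [he f hf] at h1
    have h2 : (fun x => χ.1 (e.symm (e x))) = χ.1 := by
      funext x
      rw [e.symm_apply_apply]
    rw [h2, χ.2.2.2 f hf] at h1
    exact h1.symm

end

/-- **the ordinary conjecture is the invariant conjecture for `G = E`** -/
theorem ORD : S_ORD := by
  intro p _ F _ _ _ red H _ _ hI hP B hB h0 d
  have hP' : ∀ P : Subgroup (⊤ : Subgroup H), P.Normal → IsPGroup p P → P = ⊥ := by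
    intro P hn hp
    have h1 : (P.map (Subgroup.topEquiv (G := H)).toMonoidHom).Normal :=
      Subgroup.Normal.map hn _ (Subgroup.topEquiv (G := H)).surjective
    have h2 := hP _ h1 (hp.map _)
    exact (Subgroup.map_eq_bot_iff_of_injective P (Subgroup.topEquiv (G := H)).injective).1 h2
  have h1 := hI hP' (tb B) (tb_block hB) (tb_dz red h0) d ⊤
  have h2 : (fun σ => (kdU p red (⊤ : Subgroup H) (tb B) d ⊤ σ : ℤ)) =
      fun σ : Set (Subgroup H) => gc red p B d (chainStabilizer σ) :=
    funext fun σ => kdU_top red B d σ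
  rw [h2] at h1
  change alternatingSum p H (gc red p B d) = 0
  have _i : Fintype (GCh p (⊤ : Subgroup H)) := Fintype.ofFinite _
  have h3 := Pool.Agent.R674.Tw.card_mul_inv (p := p) (⊤ : Subgroup H)
    (fun σ : Set (Subgroup H) => gc red p B d (chainStabilizer σ)) (by
      intro g _ σ
      rw [chainStabilizer_conj, gc_conj])
  have h4 := Pool.Agent.Q90.WR.card_mul_alternatingSum' (p := p) (G := H)
    (gc red p B d) (fun g J => gc_conj red B d g J)
  rw [h1, mul_zero] at h3
  have hpos : (Nat.card H : ℤ) ≠ 0 := by exact_mod_cast Nat.card_pos.ne'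
  apply mul_left_cancel₀ hpos
  rw [h4, mul_zero, h3]
  refine (Fintype.sum_equiv
    ({ toFun := fun σ => ⟨σ.1, σ.2, fun P _ => le_top⟩
       invFun := fun σ => ⟨σ.1, σ.2.1⟩
       left_inv := fun σ => rfl
       right_inv := fun σ => rfl } : Pool.Agent.Q90.WR.Ch p H ≃ GCh p (⊤ : Subgroup H))
    _ _ fun σ => ?_)
  change (-1 : ℤ) ^ σ.1.ncard * ((Nat.card (chainStabilizer σ.1) : ℤ) *
      gc red p B d (chainStabilizer σ.1)) =
    (-1 : ℤ) ^ σ.1.ncard * ((Nat.card (NG ⊤ σ.1) : ℤ) * gc red p B d (chainStabilizer σ.1))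
  have h5 : NG (⊤ : Subgroup H) σ.1 = chainStabilizer σ.1 := top_inf_eq _
  rw [h5]

end Pool.Agent.N622.DIORD
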