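import Pool.Agent.N979.CP.Stm4
import Pool.Agent.N979.CP.Fin

/-!
# PROJECT FB, JJ2 (helper622): the double integral, in all dimensions

`JJ d s t = 2 vol(B^d) ∫_0^1 √(1-w²)^d (√(1-(t w)²))⁻¹ ((√(1-(s w)²))⁻¹)^d dw`.
-/

set_option autoImplicit false

open MeasureTheory Metric Set

namespace Pool.Agent.N622.FBJJ

open Pool.Agent.H241R3.FV Pool.Agent.N526.CP Pool.Agent.N979.CP

/-- the integral over the ball of a function of one coordinate does not depend on the direction -/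
theorem rotb {d : ℕ} (F : ℝ → ℝ) (θ : Sph (d + 1)) :
    ∫ y in ball (0 : E (d + 1)) 1, F (ip y θ) = ∫ y in ball (0 : E (d + 1)) 1, F (y 0) := by
  have h1 : ‖(θ : E (d + 1))‖ = ‖(EuclideanSpace.single 0 1 : E (d + 1))‖ := by
    rw [norm_sph θ]
    simp
  obtain ⟨R, h2⟩ : ∃ R : E (d + 1) ≃ₗᵢ[ℝ] E (d + 1),
      R (θ : E (d + 1)) = EuclideanSpace.single 0 1 :=
    ⟨_, Submodule.reflection_sub h1⟩
  have h3 : ∀ y, ip y θ = (R y) 0 := by
    intro y
    unfold ip
    rw [← R.inner_map_map y θ, h2]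
    simp [EuclideanSpace.inner_single_right]
  simp only [h3]
  have h4 := R.measurePreserving
  have h5 := h4.setIntegral_preimage_emb R.toHomeomorph.measurableEmbedding
    (fun y : E (d + 1) => F (y 0)) (ball 0 1)
  have h6 : R ⁻¹' ball (0 : E (d + 1)) 1 = ball 0 1 := by
    ext y
    simp
  rw [h6] at h5
  exact h5

/-- splitting off the first coordinate -/
noncomputable def Ψ (d : ℕ) : ℝ × E d ≃ᵐ E (d + 1) :=
  ((MeasurableEquiv.refl ℝ).prodCongr (MeasurableEquiv.toLp 2 (Fin d → ℝ)).symm).trans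
    ((MeasurableEquiv.piFinSuccAbove (fun _ : Fin (d + 1) => ℝ) 0).symm.trans
      (MeasurableEquiv.toLp 2 (Fin (d + 1) → ℝ)))

theorem Ψ_mp (d : ℕ) : MeasurePreserving (Ψ d) := by
  have h1 : MeasurePreserving (MeasurableEquiv.toLp 2 (Fin d → ℝ)).symm :=
    PiLp.volume_preserving_ofLp (Fin d)
  have h2 : MeasurePreserving (MeasurableEquiv.toLp 2 (Fin (d + 1) → ℝ)) :=
    PiLp.volume_preserving_toLp (Fin (d + 1))
  have h3 := (volume_preserving_piFinSuccAbove (fun _ : Fin (d + 1) => ℝ) 0).symm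
  have h4 : MeasurePreserving ((MeasurableEquiv.refl ℝ).prodCongr
      (MeasurableEquiv.toLp 2 (Fin d → ℝ)).symm) := (MeasurePreserving.id volume).prod h1
  exact (h2.comp h3).comp h4

theorem Ψ_zero (d : ℕ) (p : ℝ × E d) : Ψ d p 0 = p.1 := rfl

theorem Ψ_succ (d : ℕ) (p : ℝ × E d) (j : Fin d) : Ψ d p j.succ = p.2 j := rfl

theorem Ψ_norm (d : ℕ) (p : ℝ × E d) : ‖Ψ d p‖ ^ 2 = p.1 ^ 2 + ‖p.2‖ ^ 2 := by
  rw [EuclideanSpace.real_norm_sq_eq, EuclideanSpace.real_norm_sq_eq, Fin.sum_univ_succ]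
  rfl

theorem vol_ball {d : ℕ} (hd : 1 ≤ d) {r : ℝ} (hr : 0 ≤ r) :
    (volume : Measure (E d)).real (ball 0 r) = r ^ d * (volume : Measure (E d)).real (ball 0 1) := by
  have hn : Nontrivial (E d) := by
    obtain ⟨e, rfl⟩ : ∃ e, d = e + 1 := ⟨d - 1, by omega⟩
    infer_instance
  unfold Measure.real
  rw [Measure.addHaar_ball _ _ hr, ENNReal.toReal_mul, ENNReal.toReal_ofReal (by positivity)]
  simp

/-- slices of the ball -/
theorem slice {d : ℕ} (hd : 1 ≤ d) (F : ℝ → ℝ) (hFm : Measurable F) {C : ℝ}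
    (hC : ∀ w ∈ Icc (-1 : ℝ) 1, |F w| ≤ C) :
    ∫ y in ball (0 : E (d + 1)) 1, F (y 0) =
      (volume : Measure (E d)).real (ball 0 1) * ∫ w : ℝ, √(1 - w ^ 2) ^ d * F w := by
  have h1 := (Ψ_mp d).setIntegral_preimage_emb (Ψ d).measurableEmbedding
    (fun y : E (d + 1) => F (y 0)) (ball 0 1)
  rw [← h1]
  have hB : MeasurableSet (Ψ d ⁻¹' ball 0 1) := (Ψ d).measurable measurableSet_ball
  have hBv : volume (Ψ d ⁻¹' ball (0 : E (d + 1)) 1) < ⊤ := by
    rw [(Ψ_mp d).measure_preimage_equiv]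
    exact measure_ball_lt_top
  have hmem : ∀ p : ℝ × E d, p ∈ Ψ d ⁻¹' ball (0 : E (d + 1)) 1 ↔
      p.2 ∈ ball (0 : E d) √(1 - p.1 ^ 2) := by
    intro p
    rw [mem_preimage, mem_ball_zero_iff, mem_ball_zero_iff, Real.lt_sqrt (norm_nonneg _)]
    have h2 := Ψ_norm d p
    have h3 : ‖Ψ d p‖ < 1 ↔ ‖Ψ d p‖ ^ 2 < 1 := by
      rw [sq_lt_one_iff₀ (norm_nonneg _)]
    rw [h3, h2]
    constructor <;> intro h <;> linarith
  have hw : ∀ p ∈ Ψ d ⁻¹' ball (0 : E (d + 1)) 1, p.1 ∈ Icc (-1 : ℝ) 1 := by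
    intro p hp
    rw [mem_preimage, mem_ball_zero_iff] at hp
    have h2 := Ψ_norm d p
    have h3 : ‖Ψ d p‖ ^ 2 < 1 := by
      rw [sq_lt_one_iff₀ (norm_nonneg _)]
      exact hp
    have h4 : p.1 ^ 2 ≤ 1 := by nlinarith [sq_nonneg ‖p.2‖]
    exact abs_le.1 ((sq_le_one_iff_abs_le_one _).1 h4)
  have hint : IntegrableOn (fun p : ℝ × E d => F (Ψ d p 0)) (Ψ d ⁻¹' ball 0 1) := by
    refine Measure.integrableOn_of_bounded (M := C) hBv.ne ?_ ?_
    · exact (hFm.comp measurable_fst).aestronglyMeasurable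
    · refine (ae_restrict_iff' hB).2 (Filter.Eventually.of_forall fun p hp => ?_)
      rw [Real.norm_eq_abs]
      exact hC _ (hw p hp)
  rw [← integral_indicator hB]
  have hint2 := hint.integrable_indicator hB
  rw [Measure.volume_eq_prod] at hint2 ⊢
  rw [integral_prod _ hint2, ← integral_const_mul]
  congr 1
  funext w
  have h5 : ∀ z : E d, (Ψ d ⁻¹' ball (0 : E (d + 1)) 1).indicator
      (fun p : ℝ × E d => F (Ψ d p 0)) (w, z) =
      (ball (0 : E d) √(1 - w ^ 2)).indicator (fun _ => F w) z := by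
    intro z
    by_cases hz : z ∈ ball (0 : E d) √(1 - w ^ 2)
    · rw [indicator_of_mem hz, indicator_of_mem ((hmem (w, z)).2 hz)]
      rfl
    · rw [indicator_of_notMem hz, indicator_of_notMem (fun h => hz ((hmem (w, z)).1 h))]
  simp only [h5]
  rw [integral_indicator measurableSet_ball, setIntegral_const, smul_eq_mul,
    vol_ball hd (Real.sqrt_nonneg _)]
  ring

/-- the integral over the line -/
theorem line {d : ℕ} (hd : 1 ≤ d) (F : ℝ → ℝ) (hF : ContinuousOn F (Icc (-1) 1))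
    (he : ∀ w, F (-w) = F w) :
    ∫ w : ℝ, √(1 - w ^ 2) ^ d * F w = 2 * ∫ w in (0 : ℝ)..1, √(1 - w ^ 2) ^ d * F w := by
  have h1 : ∫ w : ℝ, √(1 - w ^ 2) ^ d * F w = ∫ w in (-1 : ℝ)..1, √(1 - w ^ 2) ^ d * F w := by
    rw [intervalIntegral.integral_of_le (by norm_num), setIntegral_eq_integral_of_forall_compl_eq_zero]
    intro w hw
    have h2 : 1 - w ^ 2 ≤ 0 := by
      by_contra h3
      push Not at h3
      apply hw
      have h4 : w ^ 2 < 1 := by linarith
      have h5 := abs_lt.1 ((sq_lt_one_iff_abs_lt_one _).1 h4)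
      exact ⟨h5.1, h5.2.le⟩
    rw [Real.sqrt_eq_zero_of_nonpos h2, zero_pow (by omega), zero_mul]
  have hc : ContinuousOn (fun w : ℝ => √(1 - w ^ 2) ^ d * F w) (Icc (-1) 1) :=
    ContinuousOn.mul (by fun_prop) hF
  have hi : ∀ a b : ℝ, a ∈ Icc (-1 : ℝ) 1 → b ∈ Icc (-1 : ℝ) 1 →
      IntervalIntegrable (fun w : ℝ => √(1 - w ^ 2) ^ d * F w) volume a b := by
    intro a b ha hb
    exact (hc.mono (uIcc_subset_Icc ha hb)).intervalIntegrable
  rw [h1, ← intervalIntegral.integral_add_adjacent_intervals (b := 0)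
    (hi (-1) 0 (by constructor <;> norm_num) (by constructor <;> norm_num))
    (hi 0 1 (by constructor <;> norm_num) (by constructor <;> norm_num))]
  have h2 : ∫ w in (-1 : ℝ)..0, √(1 - w ^ 2) ^ d * F w =
      ∫ w in (0 : ℝ)..1, √(1 - w ^ 2) ^ d * F w := by
    have h3 := intervalIntegral.integral_comp_neg (a := 0) (b := 1)
      (fun w : ℝ => √(1 - w ^ 2) ^ d * F w)
    rw [neg_zero] at h3
    rw [← h3]
    apply intervalIntegral.integral_congr
    intro w _
    simp only [neg_sq, he]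
  rw [h2]
  ring

theorem sq_lt {s w : ℝ} (h0 : 0 < s) (h1 : s < 1) (hw : w ∈ Icc (-1 : ℝ) 1) :
    (s * w) ^ 2 < 1 := by
  rw [sq_lt_one_iff_abs_lt_one, abs_mul, abs_of_pos h0]
  have h2 : |w| ≤ 1 := abs_le.2 hw
  nlinarith [abs_nonneg w]

/-- the double integral in all dimensions -/
theorem gen {d : ℕ} (hd : 1 ≤ d) {s t : ℝ} (hs0 : 0 < s) (hs1 : s < 1) (ht0 : 0 < t) (ht1 : t < 1) :
    JJ d s t = 2 * (volume : Measure (E d)).real (ball 0 1) * ∫ w in (0 : ℝ)..1,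
      √(1 - w ^ 2) ^ d * ((√(1 - (t * w) ^ 2))⁻¹ * ((√(1 - (s * w) ^ 2))⁻¹) ^ d) := by
  obtain ⟨F, hF⟩ : ∃ F : ℝ → ℝ, F = fun w => (√(1 - (t * w) ^ 2))⁻¹ *
    ((√(1 - (s * w) ^ 2))⁻¹) ^ d := ⟨_, rfl⟩
  have hFc : ContinuousOn F (Icc (-1) 1) := by
    rw [hF]
    refine ContinuousOn.mul (ContinuousOn.inv₀ (by fun_prop) fun w hw => ?_)
      ((ContinuousOn.inv₀ (by fun_prop) fun w hw => ?_).pow d)
    · exact (Real.sqrt_pos.2 (by linarith [sq_lt ht0 ht1 hw])).ne'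
    · exact (Real.sqrt_pos.2 (by linarith [sq_lt hs0 hs1 hw])).ne'
  have hFm : Measurable F := by
    rw [hF]
    fun_prop
  have hFe : ∀ w, F (-w) = F w := by
    intro w
    rw [hF]
    simp only [mul_neg, neg_sq]
  obtain ⟨C, hC⟩ := isCompact_Icc.exists_bound_of_continuousOn hFc
  have hC' : ∀ w ∈ Icc (-1 : ℝ) 1, |F w| ≤ C := fun w hw => hC w hw
  obtain ⟨hp, -, -⟩ := Fin.sph d hd
  have h1 : JJ d s t = ∫ y in ball (0 : E (d + 1)) 1, ∫ θ : Sph (d + 1), F (ip y θ)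
      ∂(sg (d + 1)) := by
    unfold JJ
    rw [hF]
  have hcont : Continuous fun p : E (d + 1) × Sph (d + 1) => ip p.1 p.2 := by
    unfold ip
    fun_prop
  have hfin : IsFiniteMeasure ((volume : Measure (E (d + 1))).restrict (ball 0 1)) :=
    ⟨by rw [Measure.restrict_apply_univ]; exact measure_ball_lt_top⟩
  rw [h1, integral_integral_swap]
  · simp only [rotb]
    rw [integral_const, slice hd F hFm hC', line hd F hFc hFe]
    have h2 : (sg (d + 1)).real univ = 1 := by simp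
    rw [h2, one_smul, hF]
    ring
  · refine Integrable.of_bound (hFm.comp hcont.measurable).aestronglyMeasurable C ?_
    have h3 : ∀ᵐ p ∂(((volume : Measure (E (d + 1))).restrict (ball 0 1)).prod (sg (d + 1))),
        p.1 ∈ ball (0 : E (d + 1)) 1 := by
      have h4 : ∀ᵐ y ∂((volume : Measure (E (d + 1))).restrict (ball 0 1)),
        y ∈ ball (0 : E (d + 1)) 1 := ae_restrict_mem measurableSet_ball
      exact Measure.quasiMeasurePreserving_fst.ae h4
    filter_upwards [h3] with p hp1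
    rw [Real.norm_eq_abs]
    apply hC'
    apply abs_le.1
    have h5 : |ip p.1 p.2| ≤ ‖p.1‖ * ‖(p.2 : E (d + 1))‖ := abs_real_inner_le_norm _ _
    rw [norm_sph, mul_one] at h5
    exact h5.trans (mem_ball_zero_iff.1 hp1).le

theorem main : S_JJ2 := by
  intro s t hs0 hs1 ht0 ht1
  rw [gen (d := 2) (by norm_num) hs0 hs1 ht0 ht1]
  have h1 : (volume : Measure (E 2)).real (ball 0 1) = Real.pi := by
    unfold Measure.real
    rw [EuclideanSpace.volume_ball_fin_two, ENNReal.ofReal_one, one_pow, one_mul,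
      ENNReal.toReal_ofReal Real.pi_pos.le]
  rw [h1]
  congr 1
  apply intervalIntegral.integral_congr
  intro w hw
  rw [uIcc_of_le zero_le_one] at hw
  simp only
  rw [Real.sq_sqrt]
  nlinarith [hw.1, hw.2]

theorem main3 : S_JJ3 := by
  intro s t hs0 hs1 ht0 ht1
  rw [gen (d := 3) (by norm_num) hs0 hs1 ht0 ht1]
  have h1 : (volume : Measure (E 3)).real (ball 0 1) = 4 * Real.pi / 3 := by
    unfold Measure.real
    rw [EuclideanSpace.volume_ball_fin_three, ENNReal.ofReal_one, one_pow, one_mul,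
      ENNReal.toReal_ofReal (by positivity), mul_comm]
  rw [h1]
  ring

end Pool.Agent.N622.FBJJ
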